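import Pool.Agent.W394.BQN.Stm2

set_option autoImplicit false

open Polynomial

noncomputable section

namespace Pool.Agent.W799.BQN

open BQ Pool.Agent.W394.BQN

section
variable (C : Type) [CommRing C] (u : C) (n : ℕ)

/-- the map `X_i ↦ x_(i+1)` -/
def psi : MvPolynomial (Fin n) C →+* Semi C u n :=
  MvPolynomial.eval₂Hom ((Q.pr C u n).comp MvPolynomial.C)
    (fun i => Q.pr C u n (MvPolynomial.X i.succ))

/-- the product of the variables -/
def PP : MvPolynomial (Fin n) C := ∏ i, MvPolynomial.X i

theorem psi_C (c : C) : psi C u n (MvPolynomial.C c) = Q.pr C u n (MvPolynomial.C c) := by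
  unfold psi
  simp

theorem psi_X (i : Fin n) : psi C u n (MvPolynomial.X i) = Q.pr C u n (MvPolynomial.X i.succ) := by
  unfold psi
  simp

theorem x0_psi : Q.pr C u n (MvPolynomial.X 0) * psi C u n (PP C n) =
    Q.pr C u n (MvPolynomial.C u) := by
  rw [← Q.pr_prod]
  have h1 := Fin.prod_univ_succ (fun i => Q.pr C u n (MvPolynomial.X i))
  refine Eq.trans ?_ h1.symm
  congr 1
  unfold PP
  rw [map_prod]
  exact Finset.prod_congr rfl (fun i _ => psi_X C u n i)

/-- the inverse after localisation -/
def theta : Semi C u n →+* Localization.Away (PP C n) :=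
  Q.lft C u n ((algebraMap (MvPolynomial (Fin n) C) (Localization.Away (PP C n))).comp
    MvPolynomial.C)
    (Fin.cases (algebraMap (MvPolynomial (Fin n) C) (Localization.Away (PP C n))
        (MvPolynomial.C u) * IsLocalization.Away.invSelf (PP C n))
      (fun i => algebraMap (MvPolynomial (Fin n) C) (Localization.Away (PP C n))
        (MvPolynomial.X i))) (by
    rw [Fin.prod_univ_succ]
    simp only [Fin.cases_zero, Fin.cases_succ]
    rw [← map_prod]
    have h1 : algebraMap (MvPolynomial (Fin n) C) (Localization.Away (PP C n)) (PP C n) *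
        IsLocalization.Away.invSelf (PP C n) = 1 := IsLocalization.Away.mul_invSelf (PP C n)
    show algebraMap (MvPolynomial (Fin n) C) (Localization.Away (PP C n)) (MvPolynomial.C u) *
      IsLocalization.Away.invSelf (PP C n) *
      algebraMap (MvPolynomial (Fin n) C) (Localization.Away (PP C n)) (PP C n) =
      algebraMap (MvPolynomial (Fin n) C) (Localization.Away (PP C n)) (MvPolynomial.C u)
    rw [mul_assoc, mul_comm (IsLocalization.Away.invSelf (PP C n)), h1, mul_one])

theorem theta_psi : (theta C u n).comp (psi C u n) =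
    algebraMap (MvPolynomial (Fin n) C) (Localization.Away (PP C n)) := by
  apply MvPolynomial.ringHom_ext
  · intro c
    rw [RingHom.comp_apply, psi_C]
    unfold theta
    rw [Q.lft_C]
    rfl
  · intro i
    rw [RingHom.comp_apply, psi_X]
    unfold theta
    rw [Q.lft_X]
    rfl

theorem cond1 (a : MvPolynomial (Fin n) C) (ha : psi C u n a = 0) :
    ∃ m ∈ Submonoid.powers (PP C n), m * a = 0 := by
  have h1 : algebraMap (MvPolynomial (Fin n) C) (Localization.Away (PP C n)) a = 0 := by
    rw [← theta_psi C u n, RingHom.comp_apply, ha, map_zero]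
  rw [IsLocalization.map_eq_zero_iff (Submonoid.powers (PP C n))] at h1
  obtain ⟨m, hm⟩ := h1
  exact ⟨m, m.2, hm⟩

theorem cond2 (b : Semi C u n) : ∃ m ∈ Submonoid.powers (PP C n), ∃ a,
    psi C u n m * b = psi C u n a := by
  obtain ⟨f, rfl⟩ : ∃ f, Q.pr C u n f = b := Ideal.Quotient.mk_surjective b
  induction f using MvPolynomial.induction_on with
  | C c => exact ⟨1, Submonoid.one_mem _, MvPolynomial.C c, by rw [map_one, one_mul, psi_C]⟩
  | add f g hf hg =>
    obtain ⟨m₁, hm₁, a₁, h₁⟩ := hf
    obtain ⟨m₂, hm₂, a₂, h₂⟩ := hg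
    refine ⟨m₁ * m₂, Submonoid.mul_mem _ hm₁ hm₂, m₂ * a₁ + m₁ * a₂, ?_⟩
    rw [map_add, map_add, map_mul, map_mul, map_mul, ← h₁, ← h₂]
    ring
  | mul_X f i hf =>
    obtain ⟨m, hm, a, h⟩ := hf
    induction i using Fin.cases with
    | zero =>
      refine ⟨m * PP C n, Submonoid.mul_mem _ hm (Submonoid.mem_powers _),
        a * MvPolynomial.C u, ?_⟩
      rw [map_mul, map_mul, map_mul, psi_C, ← h, ← x0_psi]
      ring
    | succ j =>
      refine ⟨m, hm, a * MvPolynomial.X j, ?_⟩
      rw [map_mul, map_mul, psi_X, ← h]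
      ring

end

theorem t_SLB (h : S_GL) : S_SLB := by
  intro C _ u n q hq hu
  have hGL := (h (MvPolynomial (Fin n) C) (Semi C u n) (psi C u n)
    (Submonoid.powers (PP C n)) (cond1 C u n) (cond2 C u n)).1 q (by
      rintro m ⟨k, rfl⟩ hm
      apply hu
      rw [← x0_psi]
      apply Ideal.mul_mem_left
      simp only [map_pow] at hm
      exact hq.mem_of_pow_mem k hm)
  obtain ⟨q', hq', -, e⟩ := hGL
  exact ⟨q', hq', e⟩

end Pool.Agent.W799.BQN
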